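import Mathlib
import Pool.Agent.Results.MP_5ecbac_al.Skeleton
import Pool.Agent.R252.BahN
import Pool.Agent.R252.BahD
import Pool.Agent.R252.BahS

/-!
Multilinear Lie monomials: Bahturin's question for all bracket structures in which every node with
two non-leaf children has children with equally many cherries.
-/

set_option linter.all false

universe u

namespace Pool.Agent.Results.MP_5ecbac_al.BalancedSkeleton

open ThreeCherries ThreeCherries.Br Skeleton MvPolynomial
open Pool.Agent.R252 Pool.Agent.R252.BahL Pool.Agent.R252.BahM Pool.Agent.R252.BahN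
  Pool.Agent.R252.BahD Pool.Agent.R252.BahS

/-- every node with two non-leaf children has children with equally many cherries -/
def Balanced : Br → Prop
  | leaf => True
  | node l r => Balanced l ∧ Balanced r ∧ (l = leaf ∨ r = leaf ∨ l.cherries = r.cherries)

lemma balanced_iff (s : Br) : Balanced s ↔ BahS.Balanced s := by
  induction s with
  | leaf => exact Iff.rfl
  | node l r hl hr => simp only [Balanced, BahS.Balanced, hl, hr]

variable (K : Type u) [Field K]

lemma struct0 (s : Br) (hs : s ≠ leaf) (h : CEq (sk s) leaf) :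
    ∃ k, CEq s (hang (node leaf leaf) k) ∧
      P K s 0 = (supp K 0 1).map (LinearMap.mulLeft K (w K 0 1 ^ (k + 1))) := by
  induction s with
  | leaf => exact absurd rfl hs
  | node l r hl hr =>
    have comp : ∀ (k : ℕ), ((supp K 0 1).map (LinearMap.mulLeft K (w K 0 1 ^ (k + 1)))).map
        (LinearMap.mulLeft K (w K 0 1)) =
        (supp K 0 1).map (LinearMap.mulLeft K (w K 0 1 ^ (k + 1 + 1))) := by
      intro k
      rw [← Submodule.map_comp]
      congr 1
      refine LinearMap.ext (fun x => ?_)
      rw [LinearMap.comp_apply, LinearMap.mulLeft_apply, LinearMap.mulLeft_apply,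
        LinearMap.mulLeft_apply, ← mul_assoc, ← pow_succ']
    by_cases h1 : l = leaf
    · by_cases h2 : r = leaf
      · subst h1 h2
        refine ⟨0, CEq.refl _, ?_⟩
        rw [P_ll, zero_add, pow_one]
      · subst h1
        rw [sk_lnode r h2] at h
        obtain ⟨k, e1, e2⟩ := hr h2 h
        refine ⟨k + 1, (CEq.comm _ _).trans (CEq.congr e1 (CEq.refl _)), ?_⟩
        have hc : r.cherries = 1 := by rw [← ch_sk r h2, h.deg_eq]; rfl
        rw [P_ln K r h2, hc, e2, zero_add, comp]
    · by_cases h2 : r = leaf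
      · subst h2
        rw [sk_noder l h1] at h
        obtain ⟨k, e1, e2⟩ := hl h1 h
        refine ⟨k + 1, CEq.congr e1 (CEq.refl _), ?_⟩
        have hc : l.cherries = 1 := by rw [← ch_sk l h1, h.deg_eq]; rfl
        rw [P_nl K l h1, hc, e2, zero_add, comp]
      · rw [sk_node l r h1 h2] at h
        exact (leaf_ne_node_CEq h.symm).elim

lemma struct1 (s : Br) (hs : s ≠ leaf) (h : ℕ) (hsk : CEq (sk s) (perf (h + 1))) :
    ∃ k A B, A ≠ leaf ∧ B ≠ leaf ∧ CEq s (hang (node A B) k) ∧ CEq (sk A) (perf h) ∧
      CEq (sk B) (perf h) ∧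
      P K s 0 = (Z (2 ^ h) (P K A 0) (P K B 0)).map
        (LinearMap.mulLeft K (w K 0 (2 * 2 ^ h) ^ k)) := by
  induction s with
  | leaf => exact absurd rfl hs
  | node l r hl hr =>
    have comp : ∀ (S : Submodule K (MvPolynomial ℕ K)) (k : ℕ),
        (S.map (LinearMap.mulLeft K (w K 0 (2 * 2 ^ h) ^ k))).map
        (LinearMap.mulLeft K (w K 0 (2 * 2 ^ h))) =
        S.map (LinearMap.mulLeft K (w K 0 (2 * 2 ^ h) ^ (k + 1))) := by
      intro S k
      rw [← Submodule.map_comp]
      congr 1
      refine LinearMap.ext (fun x => ?_)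
      rw [LinearMap.comp_apply, LinearMap.mulLeft_apply, LinearMap.mulLeft_apply,
        LinearMap.mulLeft_apply, ← mul_assoc, ← pow_succ']
    by_cases h1 : l = leaf
    · by_cases h2 : r = leaf
      · subst h1 h2
        exact (leaf_ne_node_CEq hsk).elim
      · subst h1
        rw [sk_lnode r h2] at hsk
        obtain ⟨k, A, B, hA, hB, e1, e2, e3, e4⟩ := hr h2 hsk
        refine ⟨k + 1, A, B, hA, hB, (CEq.comm _ _).trans (CEq.congr e1 (CEq.refl _)), e2, e3, ?_⟩
        have hc : r.cherries = 2 * 2 ^ h := by
          rw [← ch_sk r h2, hsk.deg_eq, deg_perf, pow_succ']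
        rw [P_ln K r h2, hc, e4, zero_add, comp]
    · by_cases h2 : r = leaf
      · subst h2
        rw [sk_noder l h1] at hsk
        obtain ⟨k, A, B, hA, hB, e1, e2, e3, e4⟩ := hl h1 hsk
        refine ⟨k + 1, A, B, hA, hB, CEq.congr e1 (CEq.refl _), e2, e3, ?_⟩
        have hc : l.cherries = 2 * 2 ^ h := by
          rw [← ch_sk l h1, hsk.deg_eq, deg_perf, pow_succ']
        rw [P_nl K l h1, hc, e4, zero_add, comp]
      · rw [sk_node l r h1 h2] at hsk
        have hAB : CEq (sk l) (perf h) ∧ CEq (sk r) (perf h) := by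
          rcases CEq_inv hsk with ⟨a, b⟩ | ⟨a, b⟩
          · exact ⟨a, b⟩
          · exact ⟨a, b⟩
        have hc1 : l.cherries = 2 ^ h := by rw [← ch_sk l h1, hAB.1.deg_eq, deg_perf]
        have hc2 : r.cherries = 2 ^ h := by rw [← ch_sk r h2, hAB.2.deg_eq, deg_perf]
        refine ⟨0, l, r, h1, h2, CEq.refl _, hAB.1, hAB.2, ?_⟩
        rw [P_nn K l r h1 h2, hc1, hc2, ← P_sh r h2, ← P_sh l h1, pow_zero]
        have : LinearMap.mulLeft K (1 : MvPolynomial ℕ K) = LinearMap.id := by
          refine LinearMap.ext (fun x => ?_); simp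
        rw [this, Submodule.map_id]
        rfl

theorem main (h : ℕ) : ∀ s t : Br, s ≠ leaf → t ≠ leaf → CEq (sk s) (perf h) →
    CEq (sk t) (perf h) → P K s 0 = P K t 0 → CEq s t := by
  induction h with
  | zero =>
    intro s t hs ht h1 h2 hP
    obtain ⟨k, e1, e2⟩ := struct0 K s hs h1
    obtain ⟨k', e1', e2'⟩ := struct0 K t ht h2
    rw [e2, e2'] at hP
    have := cancel0 k k' hP
    subst this
    exact e1.trans e1'.symm
  | succ h ih =>
    intro s t hs ht h1 h2 hP
    obtain ⟨k, A, B, hA, hB, e1, e2, e3, e4⟩ := struct1 K s hs h h1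
    obtain ⟨k', A', B', hA', hB', e1', e2', e3', e4'⟩ := struct1 K t ht h h2
    have sp : ∀ X : Br, X ≠ leaf → CEq (sk X) (perf h) → P K X 0 ≤ supp K 0 (2 ^ h) := by
      intro X hX hs
      have hc : X.cherries = 2 ^ h := by rw [← ch_sk X hX, hs.deg_eq, deg_perf]
      have := P_supp (K := K) X hX 0
      rwa [hc, zero_add] at this
    rw [e4, e4'] at hP
    obtain ⟨c1, c2⟩ := cancel (2 ^ h) Nat.one_le_two_pow k k' _ _ _ _ (sp A hA e2) (sp A' hA' e2')
      (P_ne A hA 0) (P_ne B hB 0) (P_ne A' hA' 0) (P_ne B' hB' 0) hP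
    subst c1
    rcases Z_unique (2 ^ h) _ _ _ _ (sp A hA e2) (sp B hB e3) (sp A' hA' e2') (sp B' hB' e3')
      (P_ne A hA 0) (P_ne B hB 0) (P_ne A' hA' 0) (P_ne B' hB' 0) c2 with ⟨f1, f2⟩ | ⟨f1, f2⟩
    · exact (e1.trans (CEq_hang (CEq.congr (ih A A' hA hA' e2 e2' f1)
        (ih B B' hB hB' e3 e3' f2)) k)).trans e1'.symm
    · exact (e1.trans (CEq_hang ((CEq.congr (ih A B' hA hB' e2 e3' f1)
        (ih B A' hB hA' e3 e2' f2)).trans (CEq.comm _ _)) k)).trans e1'.symm

lemma good_balanced (s : Br) (hb : Balanced s) : Good K s := by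
  intro t ht
  have hd := deg_eq K _ _ ht
  by_cases hs : s = leaf
  · subst hs
    cases t with
    | leaf => exact CEq.refl _
    | node a b =>
      have h1 := ThreeCherries.deg_pos a
      have h2 := ThreeCherries.deg_pos b
      simp only [deg] at hd
      omega
  · have ht' : t ≠ leaf := by
      rintro rfl
      cases s with
      | leaf => exact hs rfl
      | node a b =>
        have h1 := ThreeCherries.deg_pos a
        have h2 := ThreeCherries.deg_pos b
        simp only [deg] at hd
        omega
    obtain ⟨h, hh⟩ := balanced_perf s hs ((balanced_iff s).1 hb)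
    have h1 := skeleton K s t hs ht' ht
    have h2 : EquivId K (perf h) (sk t) := fun A _ _ => (hh.holds.symm).trans (h1 A)
    have h3 := good_perf K h _ h2
    refine main K h s t hs ht' hh h3.symm (P_eq s t hs ht' ?_ ht)
    rw [← ch_sk s hs, ← ch_sk t ht', hh.deg_eq, h3.deg_eq]

/-- **Theorem.** Let `K` be any field and let `s` be a bracket structure in which every node with
two non-leaf children has children with equally many cherries (innermost brackets
`[x_i, x_{i+1}]`); single letters may be hung anywhere, in any number. Let `k` be any natural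
number and let `dbl^[k] s` arise from `s` by replacing `k` times all letters by cherries. Then, for
every bracket structure `t`, the identities `w_{dbl^[k] s} = 0` and `w_t = 0` hold in the same Lie
algebras over `K` if and only if `dbl^[k] s` and `t` coincide in the free commutative groupoid on
one letter. -/
theorem result (K : Type u) [Field K] (s : Br) (hb : Balanced s) (k : ℕ) (t : Br) :
    EquivId K (dbl^[k] s) t ↔ CEq (dbl^[k] s) t :=
  ⟨fun h => good_iter K s (good_balanced K s hb) k t h, fun h => holds_of_CEq h⟩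

end Pool.Agent.Results.MP_5ecbac_al.BalancedSkeleton
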